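import Pool.Agent.H7.TF.Targets

/-! D2: the limit group.  helper81 -/

set_option autoImplicit false

namespace Pool.Agent.H81.TF

open Equiv Pool.Agent.H7.TF

theorem countable_coprodI {ι : Type} [Countable ι] (M : ι → Type) [∀ i, Monoid (M i)]
    [∀ i, Countable (M i)] : Countable (Monoid.CoprodI M) := by
  classical
  have : Countable (Monoid.CoprodI.Word M) :=
    Function.Injective.countable (f := fun w : Monoid.CoprodI.Word M => w.toList)
      (fun a b h => Monoid.CoprodI.Word.ext h)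
  exact (Monoid.CoprodI.Word.equiv (M := M)).injective.countable

variable {P : Type} [Group P]

/-- bundled states -/
structure BSt (P : Type) [Group P] where
  R : List (Rel P)
  C : ℕ
  W : List (List (Fin 3 × P))
  st : St R C W

theorem st_nil : St (P := P) [] 0 [] := by
  refine ⟨?_, ?_, ?_⟩
  · intro D _ _ σ θ h ty kind hpic _ x
    have hn : ∀ d, kind d = none := by
      intro d
      rcases hk : kind d with _ | ⟨j, s, k⟩
      · rfl
      · obtain ⟨r, hr, _⟩ := hpic.rel d j s k hk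
        simp at hr
    have : bdry σ θ kind x = 0 := by
      unfold bdry
      rw [Nat.card_eq_zero]
      left
      exact ⟨fun d => d.2.2.1 (hn _)⟩
    rw [this]
    exact Nat.zero_le _
  · intro r hr
    simp at hr
  · intro X hX
    simp at hX

theorem NR_mono' {R R' : List (Rel P)} (h : R <+: R') : NR R ≤ NR R' := by
  unfold NR
  apply Subgroup.normalClosure_mono
  rintro w ⟨r, hr, rfl⟩
  exact ⟨r, h.subset hr, rfl⟩

/-- tasks -/
abbrev Task (P : Type) [Group P] : Type :=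
  ({p : Fin 3 × Fin 3 // p.1 ≠ p.2} × FP P) ⊕
    ({v : Monoid.CoprodI (fun _ : Fin 2 => Multiplicative ℤ) // v ≠ 1} × {k : ℕ // 0 < k})

/-- the task is done in the state -/
def Done (t : P) : Task P → BSt P → Prop
  | Sum.inl x, S => ∃ p q : P, (emb x.1.1.1 p * emb x.1.1.2 q)⁻¹ * x.2 ∈ NR S.R
  | Sum.inr x, S => ∃ (n : ℕ) (X : List (Fin 3 × P)), (x.2 : ℕ) ∣ n ∧ 0 < n ∧
      ev X = jmap t n x.1.1 ∧ X ∈ S.W

theorem D2 (hA : T_DA) (hB : T_DB) : T_D2 := by
  classical
  intro P _ τ t hP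
  have hcP : Countable P := hP.cnt
  have hc1 : Countable (FP P) := countable_coprodI _
  have hc2 : Countable (Monoid.CoprodI (fun _ : Fin 2 => Multiplicative ℤ)) := countable_coprodI _
  have hcT : Countable (Task P) := inferInstance
  have hne : Nonempty (Task P) := ⟨Sum.inl (⟨(0, 1), by decide⟩, 1)⟩
  obtain ⟨f, hf⟩ := exists_surjective_nat (Task P)
  have hstep : ∀ (T : Task P) (S : BSt P), ∃ S' : BSt P, S.R <+: S'.R ∧ S.W ⊆ S'.W ∧
      Done t T S' := by
    intro T S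
    rcases T with ⟨⟨⟨l, m⟩, hlm⟩, w⟩ | ⟨⟨v, hv⟩, ⟨k, hk⟩⟩
    · obtain ⟨R', C', h1, h2, h3⟩ := hA P τ t hP S.R S.C S.W S.st l m w hlm
      exact ⟨⟨R', C', S.W, h2⟩, h1, List.Subset.refl _, h3⟩
    · obtain ⟨n, X, h1, h2, h3, h4⟩ := hB P τ t hP S.R S.C S.W S.st v hv k hk
      exact ⟨⟨S.R, S.C, X :: S.W, h4⟩, List.prefix_rfl, List.subset_cons_self _ _,
        n, X, h1, h2, h3, List.mem_cons_self⟩
  choose F hF1 hF2 hF3 using hstep
  let seq : ℕ → BSt P := fun n => Nat.rec ⟨[], 0, [], st_nil⟩ (fun i S => F (f i) S) n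
  have hseq : ∀ i, seq (i + 1) = F (f i) (seq i) := fun i => rfl
  have hR1 : ∀ i, (seq i).R <+: (seq (i + 1)).R := fun i => by rw [hseq]; exact hF1 _ _
  have hW1 : ∀ i, (seq i).W ⊆ (seq (i + 1)).W := fun i => by rw [hseq]; exact hF2 _ _
  have hN : ∀ i j, i ≤ j → NR (seq i).R ≤ NR (seq j).R := by
    intro i j hij
    induction hij with
    | refl => exact le_rfl
    | step _ ih => exact ih.trans (NR_mono' (hR1 _))
  have hW : ∀ i j, i ≤ j → (seq i).W ⊆ (seq j).W := by
    intro i j hij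
    induction hij with
    | refl => exact List.Subset.refl _
    | step _ ih => exact List.Subset.trans ih (hW1 _)
  have hNn : ∀ i, (NR (seq i).R).Normal := fun i => Subgroup.normalClosure_normal
  let N : Subgroup (FP P) :=
    { carrier := {x | ∃ i, x ∈ NR (seq i).R}
      mul_mem' := by
        rintro a b ⟨i, hi⟩ ⟨j, hj⟩
        exact ⟨max i j, mul_mem (hN _ _ (le_max_left _ _) hi) (hN _ _ (le_max_right _ _) hj)⟩
      one_mem' := ⟨0, one_mem _⟩
      inv_mem' := by
        rintro a ⟨i, hi⟩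
        exact ⟨i, inv_mem hi⟩ }
  refine ⟨N, ⟨?_⟩, ?_, ?_⟩
  · rintro n ⟨i, hi⟩ g
    exact ⟨i, (hNn i).conj_mem n hi g⟩
  · intro l m w hlm
    obtain ⟨i, hi⟩ := hf (Sum.inl (⟨(l, m), hlm⟩, w))
    have h := hF3 (f i) (seq i)
    rw [← hseq, hi] at h
    obtain ⟨p, q, hpq⟩ := h
    exact ⟨p, q, i + 1, hpq⟩
  · intro v hv k hk
    obtain ⟨i, hi⟩ := hf (Sum.inr (⟨v, hv⟩, ⟨k, hk⟩))
    have h := hF3 (f i) (seq i)
    rw [← hseq, hi] at h
    obtain ⟨n, X, h1, h2, h3, h4⟩ := h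
    refine ⟨n, h1, h2, ?_⟩
    rintro ⟨j, hj⟩
    have h5 : X ∈ (seq (max (i + 1) j)).W := hW _ _ (le_max_left _ _) h4
    have h6 := ((seq (max (i + 1) j)).st.prot X h5).2.2
    apply h6
    rw [h3]
    exact hN _ _ (le_max_right _ _) hj

end Pool.Agent.H81.TF
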